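import Mathlib
import Pool.Agent.W811.Stu.Defs

/-!
Upper Hausdorff dimension of measures, couplings: statements of the measure theoretic parts.
-/

set_option autoImplicit false

open MeasureTheory Filter Topology Set
open scoped ENNReal NNReal BoundedContinuousFunction

namespace Pool.Agent.W811.Dos

open Pool.Agent.W811.Stu

/-- the upper Hausdorff dimension of a measure on the line -/
noncomputable def upDim (μ : Measure ℝ) : ℝ≥0∞ :=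
  ⨅ (S : Set ℝ) (_ : MeasurableSet S) (_ : μ Sᶜ = 0), dimH S

/-- average of a function over a finite set -/
noncomputable def av (Z : Finset ℝ) (g : ℝ → ℝ) : ℝ := (∑ x ∈ Z, g x) / Z.card

/-- the averages over `Z m` converge to `μ` -/
def Lim (Z : ℕ → Finset ℝ) (μ : Measure ℝ) : Prop :=
  ∀ g : ℝ → ℝ, Continuous g → Tendsto (fun m => av (Z m) g) atTop (𝓝 (∫ x, g x ∂μ))

/-- limit points of the graphs of `ι m` over `Z m` -/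
def LP (Z : ℕ → Finset ℝ) (ι : ℕ → ℝ → ℝ) (x y : ℝ) : Prop :=
  ∀ ε > 0, ∀ N : ℕ, ∃ m ≥ N, ∃ t ∈ Z m, |t - x| < ε ∧ |ι m t - y| < ε

/-- (CP1) existence of a limit coupling -/
def TCp1 : Prop := ∀ (Z W : ℕ → Finset ℝ) (ι : ℕ → ℝ → ℝ) (μ ν : Measure ℝ) (C K a b : ℝ),
  IsProbabilityMeasure μ → IsProbabilityMeasure ν → 0 ≤ C →
  (∀ m, (Z m).Nonempty) → (∀ m, ∀ x ∈ Z m, |x| ≤ K) → (∀ m, InjOn (ι m) (Z m)) →
  (∀ m, ∀ x ∈ Z m, ι m x ∈ W m ∧ ι m x ∈ Icc a b) →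
  (∀ m, ((W m).card : ℝ) ≤ C * (Z m).card) →
  Lim Z μ → Lim W ν →
  ∃ π : Measure (ℝ × ℝ), IsProbabilityMeasure π ∧ π.map Prod.fst = μ ∧
    (∀ S : Set ℝ, MeasurableSet S → π (Prod.snd ⁻¹' S) ≤ ENNReal.ofReal C * ν S) ∧
    π {p | ¬ (LP Z ι p.1 p.2 ∧ p.2 ∈ Icc a b)} = 0

/-- (CP2) transport of the dimension by a coupling -/
def TCp2 : Prop := ∀ (μ ν : Measure ℝ) (π : Measure (ℝ × ℝ)) (C : ℝ) (R : Set (ℝ × ℝ)),
  IsProbabilityMeasure π → π.map Prod.fst = μ →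
  (∀ S : Set ℝ, MeasurableSet S → π (Prod.snd ⁻¹' S) ≤ ENNReal.ofReal C * ν S) →
  π Rᶜ = 0 →
  (∀ r : ℝ, 0 < r → r < 1 → ∃ Cr : ℝ, ∀ p ∈ R, ∀ p' ∈ R, |p.1 - p'.1| ≤ Cr * |p.2 - p'.2| ^ r) →
  upDim μ ≤ upDim ν

/-- (UD) characterisation of the upper dimension by finite families of rational intervals -/
def TUd : Prop := ∀ (μ : Measure ℝ), IsProbabilityMeasure μ → ∀ t : ℝ≥0,
  (upDim μ ≤ t ↔ ∀ s : ℚ, (t : ℝ) < s → ∀ ε : ℚ, 0 < ε → ∃ F : Finset (ℚ × ℚ),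
    (∀ I ∈ F, I.1 < I.2) ∧ (∑ I ∈ F, ((I.2 - I.1 : ℚ) : ℝ) ^ (s : ℝ)) < ε ∧
    ENNReal.ofReal (1 - ε) < μ (⋃ I ∈ F, Ioo (I.1 : ℝ) (I.2 : ℝ)))

/-- (MES) measurability of the upper dimension of limits of measures which depend on digits -/
def TMes : Prop := ∀ (Z : ℕ → (ℕ → ℕ) → Finset ℝ),
  (∀ m d d', (∀ k < m, d k = d' k) → Z m d = Z m d') → ∀ μ : ℝ → Measure ℝ,
  (∀ α, Irrational α → α ∈ Ioo (0:ℝ) 1 → IsProbabilityMeasure (μ α) ∧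
    Lim (fun m => Z m (dig α)) (μ α)) →
  ∀ t : ℝ≥0∞, MeasurableSet {α : ℝ | Irrational α ∧ α ∈ Ioo (0:ℝ) 1 ∧ t ≤ upDim (μ α)}

end Pool.Agent.W811.Dos
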