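import Mathlib
import Pool.Agent.W811.Dos.Meas
import Pool.Agent.W811.Stu.Stmts3
import Pool.Agent.W965.Stu.CF
import Pool.Agent.H695R3.ST.Op

/-!
Density of states of Sturmian operators: statements of the parts.
-/

set_option autoImplicit false

open MeasureTheory Filter Topology Set
open scoped ENNReal NNReal

namespace Pool.Agent.W811.Dos

open Pool.Agent.W811.Stu Pool.Agent.H695R3.ST Pool.Agent.W965.Stu
open Pool.Agent.Helper434.PSCplx (L2)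

/-! ### local functions of the potential -/

/-- `Δ + V` on sequences -/
def sch (V : ℤ → ℝ) (f : ℤ → ℝ) (n : ℤ) : ℝ := f (n + 1) + f (n - 1) + V n * f n

/-- the diagonal element of `(Δ + V)^k` at `n` -/
def loc (V : ℤ → ℝ) (k : ℕ) (n : ℤ) : ℝ := ((sch V)^[k] (fun j => if j = n then 1 else 0)) n

/-- (TR) power sums of the zeros of the trace polynomial -/
def TTr : Prop := ∀ (B : ℝ) (k : ℕ), ∃ C : ℝ, ∀ V : ℤ → ℝ, (∀ n, |V n| ≤ B) → ∀ q : ℕ, 1 ≤ q →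
  ∀ Z : Finset ℝ, Z.card = q → (∀ E ∈ Z, (D V 1 q).eval E = 0) →
  |(∑ E ∈ Z, E ^ k) - ∑ n ∈ Finset.range q, loc V k ((n : ℤ) + 1)| ≤ C

/-- (NA) few zeros of the trace polynomial near a point -/
def TNa : Prop := ∀ (B E ε : ℝ), 0 < ε → ∃ η > 0, ∃ q0 : ℕ, ∀ V : ℤ → ℝ, (∀ n, |V n| ≤ B) →
  ∀ q : ℕ, q0 ≤ q → ∀ Z : Finset ℝ, (∀ x ∈ Z, (D V 1 q).eval x = 0 ∧ |x - E| < η) →
  (Z.card : ℝ) ≤ ε * q

/-- (WL) averages of local functions along the orbit of the rotation -/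
def TWl : Prop := ∀ lam α : ℝ, Irrational α → 0 < α → α < 1 → ∀ k : ℕ,
  Tendsto (fun N : ℕ => (∑ n ∈ Finset.range N, loc (pot lam α 0) k ((n : ℤ) + 1)) / (N : ℝ)) atTop
    (𝓝 (∫ ω in (0:ℝ)..1, loc (pot lam α ω) k 0))

/-! ### zeros of the trace functions -/

/-- zeros of `y_m` along the starting line -/
noncomputable def zs (lam : ℝ) (m : ℕ) (d : ℕ → ℕ) : Finset ℝ := by
  classical exact if h : {E : ℝ | (orb d (lin lam E) m).y = 0}.Finite then h.toFinset else ∅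

/-- (ZC) the number of zeros -/
def TZc : Prop := ∀ lam : ℝ, 0 < lam → ∀ α : ℝ, Irrational α → 0 < α → α < 1 → ∀ m, 1 ≤ m →
  (∀ E, E ∈ zs lam m (dig α) ↔ (orb (dig α) (lin lam E) m).y = 0) ∧
  (zs lam m (dig α)).card = QQ (dig α) (m + 1) ∧
  ∀ E ∈ zs lam m (dig α), |E| ≤ 2 + lam

/-! ### the density of states measure -/

/-- the quadratic form `⟨ψ, g(H)ψ⟩` -/
noncomputable def qf {X : Type} [NormedAddCommGroup X] [InnerProductSpace ℂ X] [CompleteSpace X]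
    (g : ℝ → ℝ) (H : X →L[ℂ] X) (ψ : X) : ℝ := (inner ℂ ψ (cfc g H ψ)).re

/-- the unit vector at the origin -/
noncomputable def δ0 : L2 := lp.single 2 (0 : ℤ) (1 : ℂ)

/-- `μ` is the density of states measure -/
def IsDOS (lam α : ℝ) (μ : Measure ℝ) : Prop :=
  IsProbabilityMeasure μ ∧ ∀ H : ℝ → L2 →L[ℂ] L2, (∀ ω, IsSchr (pot lam α ω) (H ω)) →
    ∀ g : ℝ → ℝ, Continuous g → (∃ C, ∀ x, |g x| ≤ C) →
      Measurable (fun ω => qf g (H ω) δ0) ∧ ∫ x, g x ∂μ = ∫ ω in (0:ℝ)..1, qf g (H ω) δ0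

/-- (QF) polynomials of the operator and local functions, approximation -/
def TQf : Prop := ∀ (B : ℝ) (V : ℤ → ℝ) (H : L2 →L[ℂ] L2), (∀ n, |V n| ≤ B) → IsSchr V H →
  (∀ p : Polynomial ℝ, qf (fun x => p.eval x) H δ0 = p.sum (fun k a => a * loc V k 0)) ∧
  (∀ (g1 g2 : ℝ → ℝ) (ε : ℝ), Continuous g1 → Continuous g2 →
    (∀ x ∈ Icc (-(2 + B)) (2 + B), |g1 x - g2 x| ≤ ε) → |qf g1 H δ0 - qf g2 H δ0| ≤ ε)

/-- (LM) local functions are bounded and measurable in the phase -/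
def TLm : Prop := (∀ (B : ℝ) (V : ℤ → ℝ), (∀ n, |V n| ≤ B) → ∀ k n, |loc V k n| ≤ (2 + B) ^ k) ∧
  ∀ (lam α : ℝ) (k : ℕ), Measurable (fun ω => loc (pot lam α ω) k 0)

/-- (DOS) existence, uniqueness and approximation by zeros of the trace functions -/
def TDos : Prop := ∀ lam : ℝ, 0 < lam → ∀ α : ℝ, Irrational α → 0 < α → α < 1 →
  ∃ μ : Measure ℝ, IsDOS lam α μ ∧ (∀ μ', IsDOS lam α μ' → μ' = μ) ∧
    Lim (fun m => zs lam m (dig α)) μ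

/-- (AT) the density of states measure has no atoms -/
def TAt : Prop := ∀ lam : ℝ, 0 < lam → ∀ α : ℝ, Irrational α → 0 < α → α < 1 →
  ∀ μ : Measure ℝ, IsProbabilityMeasure μ → Lim (fun m => zs lam m (dig α)) μ → ∀ E, μ {E} = 0

/-! ### crossings -/

/-- (CR) all leaves through points with `|y_M| ≤ 1` of the starting line meet the curve -/
def TCr : Prop := ∀ lam : ℝ, 0 < lam → ∃ A : ℕ, ∀ d : ℕ → ℕ, (∀ k, 1 ≤ d k) → ∀ n, A ≤ d n →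
  ∃ e0 e1, Win lam d n e0 e1 ∧ ∀ E0 : ℝ, ∀ M, 2 ≤ M → |(orb (sh d n) (lin lam E0) M).y| ≤ 1 →
    ∃ E ∈ Icc e0 e1, Joined (lam / 2) (sh d n) M (lin lam E0) (Ga lam d n E)

/-- (INJ) a leaf of level zero meets the starting line once -/
def TInj : Prop := ∀ lam : ℝ, lam ≠ 0 → ∀ d : ℕ → ℕ, (∀ k, 1 ≤ d k) → ∀ M, 2 ≤ M →
  ∀ (q : P3) (E E' : ℝ), Joined (lam / 2) d M (lin lam E) q → Joined (lam / 2) d M (lin lam E') q →
    (orb d q M).y = 0 → E = E'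

/-- (LS) limits of points with `|y_M| ≤ 1` are in the spectrum -/
def TLs : Prop := ∀ lam : ℝ, 0 < lam → ∀ d : ℕ → ℕ, (∀ k, 1 ≤ d k) → ∀ E0 : ℝ,
  (∀ ε > 0, ∀ N : ℕ, ∃ M ≥ N, ∃ E, |E - E0| < ε ∧ |(orb d (lin lam E) M).y| ≤ 1) → E0 ∈ Sp lam d

/-- the holonomy relation with both ends variable -/
def Hol2 (lam : ℝ) (d : ℕ → ℕ) (n : ℕ) (e0 e1 : ℝ) (E0 E1 : ℝ) : Prop :=
  ∀ ε > 0, ∀ N : ℕ, ∃ M ≥ N, ∃ E', |E' - E0| < ε ∧ ∃ E ∈ Icc e0 e1, |E - E1| < ε ∧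
    |(orb (sh d n) (lin lam E') M).y| ≤ 1 ∧
    Joined (lam / 2) (sh d n) M (lin lam E') (Ga lam d n E)

/-- (H2) in the interior of the window the two relations agree -/
def TH2 : Prop := ∀ lam : ℝ, 0 < lam → ∀ (d : ℕ → ℕ) (n : ℕ), (∀ k, 1 ≤ d k) →
  ∀ e0 e1, Win lam d n e0 e1 → ∀ E0 E1 : ℝ, E0 ∈ Sp lam (sh d n) → E1 ∈ Ioo e0 e1 →
    Hol2 lam d n e0 e1 E0 E1 → Hol lam d n e0 e1 E0 E1

/-- (QQ) comparison of the degrees -/
def TQq : Prop := ∀ (d : ℕ → ℕ) (n : ℕ), (∀ k, 1 ≤ d k) → ∃ C : ℕ, ∀ M,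
  QQ d (n + 1 + M + 1) ≤ C * QQ (sh d n) (M + 1)

end Pool.Agent.W811.Dos
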