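import Mathlib
import Pool.Agent.W811.Dos.Stm
import Pool.Agent.W965.Stu.ZeroOne

/-!
Assembly: the dimension of the density of states measure does not increase under the Gauss map at
large digits.
-/

set_option autoImplicit false

open MeasureTheory Filter Topology Set
open scoped ENNReal NNReal

namespace Pool.Agent.W811.Dos

open Pool.Agent.W811.Stu Pool.Agent.H695R3.ST Pool.Agent.W965.Stu

lemma sh_dig (α : ℝ) (n : ℕ) : sh (dig α) n = dig (gauss^[n + 1] α) := by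
  funext k
  unfold sh dig
  rw [← Function.iterate_add_apply, add_comm k]

lemma gauss_good {α : ℝ} (hα : Irrational α) (h0 : 0 < α) (h1 : α < 1) :
    Irrational (gauss α) ∧ 0 < gauss α ∧ gauss α < 1 := by
  have h2 : Irrational (gauss α) := by
    have h3 : Irrational α⁻¹ := hα.inv
    have h4 : gauss α = α⁻¹ - ((⌊α⁻¹⌋ : ℤ) : ℝ) := rfl
    rw [h4]
    exact h3.sub_intCast _
  refine ⟨h2, lt_of_le_of_ne (Int.fract_nonneg _) (fun h => ?_), Int.fract_lt_one _⟩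
  exact h2 ⟨0, by rw [Rat.cast_zero]; exact h⟩

lemma gauss_iter_good {α : ℝ} (hα : Irrational α) (h0 : 0 < α) (h1 : α < 1) (n : ℕ) :
    Irrational (gauss^[n] α) ∧ 0 < gauss^[n] α ∧ gauss^[n] α < 1 := by
  induction n with
  | zero => exact ⟨hα, h0, h1⟩
  | succ n ih =>
    rw [Function.iterate_succ_apply']
    exact gauss_good ih.1 ih.2.1 ih.2.2

/-- the inequality for one large digit -/
theorem ineq (hcr : TCr) (hinj : TInj) (hls : TLs) (hh2 : TH2) (hqq : TQq) (hzc : TZc) (hat : TAt)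
    (hcp1 : TCp1) (hcp2 : TCp2) (hhol : THol) : ∀ lam : ℝ, 0 < lam → ∃ A : ℕ, ∀ α : ℝ,
    Irrational α → 0 < α → α < 1 → (∀ᶠ k in atTop, dig α k ≤ (k + 1) ^ 2) → ∀ n, A ≤ dig α n →
    ∀ μ ν : Measure ℝ, IsProbabilityMeasure μ →
      Lim (fun m => zs lam m (dig (gauss^[n + 1] α))) μ →
      IsProbabilityMeasure ν → Lim (fun m => zs lam m (dig α)) ν → upDim μ ≤ upDim ν := by
  intro lam hlam
  obtain ⟨A, hA⟩ := hcr lam hlam
  refine ⟨A, ?_⟩
  intro α hα h0 h1 hgr n hn μ ν hμ hLμ hν hLν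
  set d := dig α with hd
  have hd1 : ∀ k, 1 ≤ d k := fun k => dig_pos hα h0 h1 k
  obtain ⟨b1, b2, b3⟩ := gauss_iter_good hα h0 h1 (n + 1)
  set β := gauss^[n + 1] α with hβ
  have hsh : sh d n = dig β := sh_dig α n
  have hb1 : ∀ k, 1 ≤ dig β k := fun k => dig_pos b1 b2 b3 k
  obtain ⟨e0, e1, hW, hcross⟩ := hA d hd1 n hn
  obtain ⟨C, hC⟩ := hqq d n hd1
  -- zeros
  have hZ : ∀ m, 1 ≤ m → (∀ E, E ∈ zs lam m (dig β) ↔ (orb (dig β) (lin lam E) m).y = 0) ∧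
      (zs lam m (dig β)).card = QQ (dig β) (m + 1) ∧ ∀ E ∈ zs lam m (dig β), |E| ≤ 2 + lam :=
    fun m hm => hzc lam hlam β b1 b2 b3 m hm
  have hWz : ∀ m, 1 ≤ m → (∀ E, E ∈ zs lam m d ↔ (orb d (lin lam E) m).y = 0) ∧
      (zs lam m d).card = QQ d (m + 1) ∧ ∀ E ∈ zs lam m d, |E| ≤ 2 + lam :=
    fun m hm => hzc lam hlam α hα h0 h1 m hm
  -- the crossing points
  have hι : ∀ m : ℕ, ∀ x : ℝ, ∃ y : ℝ, x ∈ zs lam (m + 2) (dig β) →
      y ∈ Icc e0 e1 ∧ Joined (lam / 2) (sh d n) (m + 2) (lin lam x) (Ga lam d n y) := by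
    intro m x
    by_cases hx : x ∈ zs lam (m + 2) (dig β)
    · have h2 := ((hZ (m + 2) (by omega)).1 x).1 hx
      obtain ⟨y, hy1, hy2⟩ := hcross x (m + 2) (by omega) (by rw [hsh, h2]; norm_num)
      exact ⟨y, fun _ => ⟨hy1, hy2⟩⟩
    · exact ⟨0, fun h => absurd h hx⟩
  choose ι hι using hι
  have hlev : ∀ m, ∀ x ∈ zs lam (m + 2) (dig β),
      (orb (sh d n) (Ga lam d n (ι m x)) (m + 2)).y = 0 := by
    intro m x hx
    obtain ⟨g, s, t, hg, hgs, hgt⟩ := (hι m x hx).2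
    have := hg.lev t Set.right_mem_uIcc
    rw [hgs, hgt, hsh] at this
    rw [hsh, this]
    exact ((hZ (m + 2) (by omega)).1 x).1 hx
  obtain ⟨π, hπ, hπ1, hπ2, hπ3⟩ := hcp1 (fun m => zs lam (m + 2) (dig β))
    (fun m => zs lam (n + 1 + (m + 2)) d) ι μ ν C (2 + lam) e0 e1 hμ hν (Nat.cast_nonneg C)
    (by
      intro m
      rw [← Finset.card_pos, (hZ (m + 2) (by omega)).2.1]
      exact QQ_pos hb1 _)
    (fun m => (hZ (m + 2) (by omega)).2.2)
    (by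
      intro m x hx x' hx' h
      refine hinj lam hlam.ne' (sh d n) (fun k => hd1 _) (m + 2) (by omega)
        (Ga lam d n (ι m x)) x x' (hι m x hx).2 ?_ (hlev m x hx)
      rw [h]
      exact (hι m x' hx').2)
    (by
      intro m x hx
      refine ⟨?_, (hι m x hx).1⟩
      rw [(hWz (n + 1 + (m + 2)) (by omega)).1, orb_add]
      exact hlev m x hx)
    (by
      intro m
      rw [(hWz (n + 1 + (m + 2)) (by omega)).2.1, (hZ (m + 2) (by omega)).2.1]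
      have := hC (m + 2)
      rw [hsh] at this
      exact_mod_cast this)
    (fun g hg => (hLμ g hg).comp (tendsto_add_atTop_nat 2))
    (fun g hg => (hLν g hg).comp (tendsto_atTop_mono (fun m => by show m ≤ _; omega) tendsto_id))
  set R : Set (ℝ × ℝ) := {p | p.1 ∈ Sp lam (sh d n) ∧ Hol lam d n e0 e1 p.1 p.2} with hR
  refine hcp2 μ ν π C R hπ hπ1 hπ2 ?_ ?_
  · -- the coupling is carried by `R`
    have hend : ∀ e : ℝ, π (Prod.snd ⁻¹' {e}) = 0 := by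
      intro e
      have h2 := hπ2 {e} (measurableSet_singleton e)
      rw [hat lam hlam α hα h0 h1 ν hν hLν e, mul_zero] at h2
      exact le_antisymm h2 (zero_le)
    have hsub : Rᶜ ⊆ {p : ℝ × ℝ | ¬ (LP (fun m => zs lam (m + 2) (dig β)) ι p.1 p.2 ∧
        p.2 ∈ Icc e0 e1)} ∪ (Prod.snd ⁻¹' {e0} ∪ Prod.snd ⁻¹' {e1}) := by
      intro p hp
      by_contra hcon
      simp only [mem_union, mem_setOf_eq, not_or, not_not, mem_preimage, mem_singleton_iff] at hcon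
      obtain ⟨⟨hLP, hIcc⟩, hne0, hne1⟩ := hcon
      apply hp
      have hIoo : p.2 ∈ Ioo e0 e1 :=
        ⟨lt_of_le_of_ne hIcc.1 (Ne.symm hne0), lt_of_le_of_ne hIcc.2 hne1⟩
      have hsp : p.1 ∈ Sp lam (sh d n) := by
        refine hls lam hlam (sh d n) (fun k => hd1 _) p.1 fun ε hε N => ?_
        obtain ⟨m, hm, t, ht, ht1, -⟩ := hLP ε hε N
        refine ⟨m + 2, by omega, t, ht1, ?_⟩
        rw [hsh, ((hZ (m + 2) (by omega)).1 t).1 ht]
        norm_num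
      refine ⟨hsp, hh2 lam hlam d n hd1 e0 e1 hW p.1 p.2 hsp hIoo ?_⟩
      intro ε hε N
      obtain ⟨m, hm, t, ht, ht1, ht2⟩ := hLP ε hε N
      refine ⟨m + 2, by omega, t, ht1, ι m t, (hι m t ht).1, ht2, ?_, (hι m t ht).2⟩
      rw [hsh, ((hZ (m + 2) (by omega)).1 t).1 ht]
      norm_num
    refine measure_mono_null hsub ?_
    rw [measure_union_null_iff, measure_union_null_iff]
    exact ⟨hπ3, hend e0, hend e1⟩
  · intro r hr0 hr1
    obtain ⟨Cr, -, hCr⟩ := hhol lam hlam d n hd1 hgr e0 e1 hW r hr0 hr1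
    exact ⟨Cr, fun p hp p' hp' => hCr p.1 hp.1 p'.1 hp'.1 p.2 p'.2 hp.2 hp'.2⟩

lemma zs_congr (lam : ℝ) (m : ℕ) (d d' : ℕ → ℕ) (h : ∀ k < m, d k = d' k) :
    zs lam m d = zs lam m d' := by
  classical
  have h1 : {E : ℝ | (orb d (lin lam E) m).y = 0} = {E : ℝ | (orb d' (lin lam E) m).y = 0} := by
    ext E
    rw [mem_setOf_eq, mem_setOf_eq, Pool.Agent.W811.Stu.orb_congr (lin lam E) h]
  have key : ∀ S S' : Set ℝ, S = S' → (if h : S.Finite then h.toFinset else ∅ : Finset ℝ) =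
      (if h : S'.Finite then h.toFinset else ∅ : Finset ℝ) := by
    rintro S _ rfl
    rfl
  unfold zs
  convert key _ _ h1

/-- **The dimension of the density of states is almost everywhere constant.** -/
theorem main (hcr : TCr) (hinj : TInj) (hls : TLs) (hh2 : TH2) (hqq : TQq) (hzc : TZc) (hat : TAt)
    (hcp1 : TCp1) (hcp2 : TCp2) (hhol : THol) (hdos : TDos) (hmes : TMes) :
    ∀ lam : ℝ, 0 < lam → ∃ c : ℝ≥0∞, ∀ᵐ α ∂(volume.restrict (Ioo (0:ℝ) 1)),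
      ∃ μ : Measure ℝ, IsDOS lam α μ ∧ (∀ μ', IsDOS lam α μ' → μ' = μ) ∧ upDim μ = c := by
  intro lam hlam
  obtain ⟨A, hA⟩ := ineq hcr hinj hls hh2 hqq hzc hat hcp1 hcp2 hhol lam hlam
  have hex : ∀ α : ℝ, ∃ μ : Measure ℝ, Irrational α → 0 < α → α < 1 →
      IsDOS lam α μ ∧ (∀ μ', IsDOS lam α μ' → μ' = μ) ∧ Lim (fun m => zs lam m (dig α)) μ := by
    intro α
    by_cases h : Irrational α ∧ 0 < α ∧ α < 1
    · obtain ⟨μ, hμ⟩ := hdos lam hlam α h.1 h.2.1 h.2.2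
      exact ⟨μ, fun _ _ _ => hμ⟩
    · exact ⟨0, fun h1 h2 h3 => absurd ⟨h1, h2, h3⟩ h⟩
  choose μ hμ using hex
  have hM := hmes (fun m d => zs lam m d) (zs_congr lam) μ
    (fun α h1 h2 => ⟨(hμ α h1 h2.1 h2.2).1.1, (hμ α h1 h2.1 h2.2).2.2⟩)
  obtain ⟨c, hc⟩ := zero_one (fun α => upDim (μ α)) hM A (by
    filter_upwards [ae_good, W174.Stu.tDig] with α h1 h2 n hn
    obtain ⟨g1, g2, g3⟩ := gauss_iter_good h1.1 h1.2.1 h1.2.2 (n + 1)
    have k1 := hμ α h1.1 h1.2.1 h1.2.2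
    have k2 := hμ _ g1 g2 g3
    exact hA α h1.1 h1.2.1 h1.2.2 h2 n hn _ _ k2.1.1 k2.2.2 k1.1.1 k1.2.2)
  refine ⟨c, ?_⟩
  filter_upwards [hc, ae_good] with α h1 h2
  have k1 := hμ α h2.1 h2.2.1 h2.2.2
  exact ⟨μ α, k1.1, k1.2.1, h1⟩

end Pool.Agent.W811.Dos
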