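import Mathlib
import Pool.Agent.W811.Dos.Meas

/-!
Uniform measures on finite sets, weak limits, the limit coupling.
-/

set_option autoImplicit false

open MeasureTheory Filter Topology Set
open scoped ENNReal NNReal BoundedContinuousFunction

namespace Pool.Agent.W811.Dos

section unif

variable {X : Type} [MeasurableSpace X]

/-- the uniform measure on the image of a finite set -/
noncomputable def um (Z : Finset ℝ) (f : ℝ → X) : Measure X :=
  (Z.card : ℝ≥0∞)⁻¹ • ∑ x ∈ Z, Measure.dirac (f x)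

lemma um_apply (Z : Finset ℝ) (f : ℝ → X) {S : Set X} (hS : MeasurableSet S) :
    um Z f S = (Z.card : ℝ≥0∞)⁻¹ * ∑ x ∈ Z, S.indicator 1 (f x) := by
  unfold um
  rw [Measure.smul_apply, Measure.finsetSum_apply, smul_eq_mul]
  congr 1
  exact Finset.sum_congr rfl fun x _ => Measure.dirac_apply' _ hS

lemma um_prob {Z : Finset ℝ} (hZ : Z.Nonempty) (f : ℝ → X) : IsProbabilityMeasure (um Z f) := by
  constructor
  rw [um_apply Z f MeasurableSet.univ]
  simp only [indicator_univ, Pi.one_apply, Finset.sum_const, nsmul_eq_mul, mul_one]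
  refine ENNReal.inv_mul_cancel ?_ (ENNReal.natCast_ne_top _)
  exact_mod_cast (Finset.card_pos.2 hZ).ne'

lemma um_zero (Z : Finset ℝ) (f : ℝ → X) {S : Set X} (hS : MeasurableSet S)
    (h : ∀ x ∈ Z, f x ∉ S) : um Z f S = 0 := by
  rw [um_apply Z f hS, Finset.sum_eq_zero (fun x hx => indicator_of_notMem (h x hx) _), mul_zero]

lemma um_integral [MeasurableSingletonClass X] (Z : Finset ℝ) (f : ℝ → X) (g : X → ℝ)
    (_hg : StronglyMeasurable g) : ∫ x, g x ∂(um Z f) = av Z (fun x => g (f x)) := by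
  unfold um av
  rw [integral_smul_measure, integral_finsetSum_measure (fun x _ => integrable_dirac (by simp))]
  simp only [integral_dirac]
  rw [ENNReal.toReal_inv, ENNReal.toReal_natCast, smul_eq_mul]
  rw [div_eq_inv_mul]

end unif

/-- a weakly convergent subsequence -/
lemma exists_sub {X : Type} [MetricSpace X] [SecondCountableTopology X] [MeasurableSpace X]
    [BorelSpace X] (μs : ℕ → ProbabilityMeasure X) {K : Set X} (hK : IsCompact K)
    (h : ∀ i, (μs i : Measure X) Kᶜ = 0) :
    ∃ (φ : ℕ → ℕ) (μ : ProbabilityMeasure X), StrictMono φ ∧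
      Tendsto (fun i => μs (φ i)) atTop (𝓝 μ) := by
  have htight : IsTightMeasureSet {((μ : ProbabilityMeasure X) : Measure X) |
      μ ∈ Set.range μs} := by
    rw [isTightMeasureSet_iff_exists_isCompact_measure_compl_le]
    intro ε hε
    refine ⟨K, hK, ?_⟩
    rintro _ ⟨μ, ⟨i, rfl⟩, rfl⟩
    rw [h i]
    exact zero_le
  have hcomp := isCompact_closure_of_isTightMeasureSet htight
  obtain ⟨μ, -, φ, hφ, hlim⟩ := hcomp.tendsto_subseq (x := μs)
    (fun i => subset_closure (Set.mem_range_self i))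
  exact ⟨φ, μ, hφ, hlim⟩

lemma bcf_of {X : Type} [TopologicalSpace X] (g : X → ℝ) (hg : Continuous g) {C : ℝ}
    (hC : ∀ x, |g x| ≤ C) : ∃ G : X →ᵇ ℝ, ∀ x, G x = g x :=
  ⟨BoundedContinuousFunction.ofNormedAddCommGroup g hg C (fun x => by
    rw [Real.norm_eq_abs]; exact hC x), fun _ => rfl⟩

lemma tendsto_int {X : Type} [TopologicalSpace X] [MeasurableSpace X] [OpensMeasurableSpace X]
    {μs : ℕ → ProbabilityMeasure X} {μ : ProbabilityMeasure X} (h : Tendsto μs atTop (𝓝 μ))
    (g : X → ℝ) (hg : Continuous g) {C : ℝ} (hC : ∀ x, |g x| ≤ C) :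
    Tendsto (fun i => ∫ x, g x ∂(μs i : Measure X)) atTop (𝓝 (∫ x, g x ∂(μ : Measure X))) := by
  obtain ⟨G, hG⟩ := bcf_of g hg hC
  have := (ProbabilityMeasure.tendsto_iff_forall_integral_tendsto.1 h) G
  simpa only [hG] using this

/-- equality of measures from integrals -/
lemma meas_eq {μ ν : Measure ℝ} [IsProbabilityMeasure μ] [IsProbabilityMeasure ν]
    (h : ∀ g : ℝ → ℝ, Continuous g → (∃ C, ∀ x, |g x| ≤ C) → ∫ x, g x ∂μ = ∫ x, g x ∂ν) :
    μ = ν := by
  refine ext_of_forall_integral_eq_of_IsFiniteMeasure fun G => ?_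
  exact h G G.continuous ⟨‖G‖, fun x => by
    rw [← Real.norm_eq_abs]; exact G.norm_coe_le_norm x⟩

/-- domination of measures from integrals -/
lemma meas_le {μ ν : Measure ℝ} [IsProbabilityMeasure μ] [IsProbabilityMeasure ν] {C : ℝ}
    (hC : 0 ≤ C)
    (h : ∀ g : ℝ → ℝ, Continuous g → (∀ x, 0 ≤ g x ∧ g x ≤ 1) →
      ∫ x, g x ∂μ ≤ C * ∫ x, g x ∂ν) {S : Set ℝ} (hS : MeasurableSet S) :
    μ S ≤ ENNReal.ofReal C * ν S := by
  -- closed sets
  have hcl : ∀ F : Set ℝ, IsClosed F → μ F ≤ ENNReal.ofReal C * ν F := by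
    intro F hF
    -- open neighbourhoods
    have hop : ∀ δ : ℝ, 0 < δ → μ F ≤ ENNReal.ofReal C * ν (Metric.thickening δ F) := by
      intro δ hδ
      set G := thickenedIndicator hδ F with hG
      have g1 : ∀ x, (0:ℝ) ≤ (G x : ℝ) ∧ (G x : ℝ) ≤ 1 := fun x =>
        ⟨(G x).2, by exact_mod_cast thickenedIndicator_le_one hδ F x⟩
      have hGc : Continuous fun x => (G x : ℝ) := NNReal.continuous_coe.comp G.continuous
      have h1 := h (fun x => (G x : ℝ)) hGc g1
      have hint : ∀ ρ : Measure ℝ, IsProbabilityMeasure ρ → Integrable (fun x => (G x : ℝ)) ρ := by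
        intro ρ hρ
        refine Integrable.of_bound hGc.aestronglyMeasurable 1 (Eventually.of_forall fun x => ?_)
        rw [Real.norm_eq_abs, abs_of_nonneg (g1 x).1]
        exact (g1 x).2
      have h2 : μ.real F ≤ ∫ x, (G x : ℝ) ∂μ := by
        rw [← integral_indicator_one hF.measurableSet]
        refine integral_mono ((integrable_const (1:ℝ)).indicator hF.measurableSet)
          (hint μ inferInstance) fun x => ?_
        by_cases hx : x ∈ F
        · rw [indicator_of_mem hx, Pi.one_apply, hG, thickenedIndicator_one hδ F hx]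
          norm_num
        · rw [indicator_of_notMem hx]
          exact (g1 x).1
      have h3 : ∫ x, (G x : ℝ) ∂ν ≤ ν.real (Metric.thickening δ F) := by
        rw [← integral_indicator_one Metric.isOpen_thickening.measurableSet]
        refine integral_mono (hint ν inferInstance) ((integrable_const (1:ℝ)).indicator
          Metric.isOpen_thickening.measurableSet) fun x => ?_
        by_cases hx : x ∈ Metric.thickening δ F
        · rw [indicator_of_mem hx, Pi.one_apply]
          exact (g1 x).2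
        · rw [indicator_of_notMem hx, hG, thickenedIndicator_zero hδ F hx]
          norm_num
      have h4 : μ.real F ≤ C * ν.real (Metric.thickening δ F) :=
        h2.trans (h1.trans (mul_le_mul_of_nonneg_left h3 hC))
      have h5 := ENNReal.ofReal_le_ofReal h4
      rw [ENNReal.ofReal_mul hC, Measure.real, Measure.real,
        ENNReal.ofReal_toReal (measure_ne_top _ _), ENNReal.ofReal_toReal (measure_ne_top _ _)]
        at h5
      exact h5
    have hlim : Tendsto (fun δ => ν (Metric.thickening δ F)) (𝓝[>] 0) (𝓝 (ν F)) :=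
      tendsto_measure_thickening_of_isClosed ⟨1, one_pos, measure_ne_top _ _⟩ hF
    have hlim2 := ENNReal.Tendsto.const_mul (a := ENNReal.ofReal C) hlim
      (Or.inr ENNReal.ofReal_ne_top)
    refine ge_of_tendsto hlim2 ?_
    filter_upwards [self_mem_nhdsWithin] with δ hδ
    exact hop δ hδ
  -- inner regularity
  rw [hS.measure_eq_iSup_isClosed_of_ne_top (measure_ne_top μ S)]
  refine iSup_le fun F => iSup_le fun hFS => iSup_le fun hF => ?_
  exact (hcl F hF).trans (mul_le_mul_right (measure_mono hFS) _)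

theorem cp1 : TCp1 := by
  intro Z W ι μ ν C K a b hμ hν hC hZ hZK hinj hι hcard hLμ hLν
  have hp : ∀ m, IsProbabilityMeasure (um (Z m) (fun x => (x, ι m x))) := fun m => um_prob (hZ m) _
  set P : ℕ → ProbabilityMeasure (ℝ × ℝ) := fun m => ⟨um (Z m) (fun x => (x, ι m x)), hp m⟩ with hP
  have hPm : ∀ m, (P m : Measure (ℝ × ℝ)) = um (Z m) (fun x => (x, ι m x)) := fun m => rfl
  obtain ⟨φ, π, hφ, hlim⟩ := exists_sub P (K := Icc (-K) K ×ˢ Icc a b)
    (isCompact_Icc.prod isCompact_Icc) (by
      intro m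
      rw [hPm]
      refine um_zero _ _ (measurableSet_Icc.prod measurableSet_Icc).compl fun x hx hcon => ?_
      exact hcon ⟨abs_le.1 (hZK m x hx), (hι m x hx).2⟩)
  have hint : ∀ g : ℝ × ℝ → ℝ, Continuous g → ∀ B : ℝ, (∀ p, |g p| ≤ B) →
      Tendsto (fun i => av (Z (φ i)) (fun x => g (x, ι (φ i) x))) atTop
        (𝓝 (∫ p, g p ∂(π : Measure (ℝ × ℝ)))) := by
    intro g hg B hB
    have h1 := tendsto_int hlim g hg hB
    refine h1.congr fun i => ?_
    rw [hPm, um_integral _ _ _ hg.stronglyMeasurable]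
  have hπ : IsProbabilityMeasure (π : Measure (ℝ × ℝ)) := π.2
  have hm1 : IsProbabilityMeasure ((π : Measure (ℝ × ℝ)).map Prod.fst) :=
    Measure.isProbabilityMeasure_map measurable_fst.aemeasurable
  have hm2 : IsProbabilityMeasure ((π : Measure (ℝ × ℝ)).map Prod.snd) :=
    Measure.isProbabilityMeasure_map measurable_snd.aemeasurable
  refine ⟨π, hπ, ?_, ?_, ?_⟩
  · refine meas_eq fun g hg hB => ?_
    obtain ⟨B, hB⟩ := hB
    rw [integral_map measurable_fst.aemeasurable hg.aestronglyMeasurable]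
    have h1 := hint (fun p => g p.1) (hg.comp continuous_fst) B (fun p => hB p.1)
    have h2 := (hLμ g hg).comp hφ.tendsto_atTop
    exact tendsto_nhds_unique h1 h2
  · intro S hS
    rw [← Measure.map_apply measurable_snd hS]
    refine meas_le hC (fun g hg h01 => ?_) hS
    rw [integral_map measurable_snd.aemeasurable hg.aestronglyMeasurable]
    have hB : ∀ x, |g x| ≤ 1 := fun x => by rw [abs_of_nonneg (h01 x).1]; exact (h01 x).2
    have h1 := hint (fun p => g p.2) (hg.comp continuous_snd) 1 (fun p => hB p.2)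
    have h2 := ((hLν g hg).comp hφ.tendsto_atTop).const_mul C
    refine le_of_tendsto_of_tendsto' h1 h2 fun i => ?_
    show av (Z (φ i)) (fun x => g (ι (φ i) x)) ≤ C * av (W (φ i)) g
    set m := φ i
    unfold av
    have hZc : (0:ℝ) < (Z m).card := by exact_mod_cast Finset.card_pos.2 (hZ m)
    obtain ⟨x0, hx0⟩ := hZ m
    have hWc : (0:ℝ) < (W m).card := by
      exact_mod_cast Finset.card_pos.2 ⟨_, (hι m x0 hx0).1⟩
    have hsum : ∑ x ∈ Z m, g (ι m x) ≤ ∑ w ∈ W m, g w := by
      classical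
      rw [← Finset.sum_image (s := Z m) (g := ι m) (f := g) (hinj m)]
      refine Finset.sum_le_sum_of_subset_of_nonneg ?_ (fun w _ _ => (h01 w).1)
      intro w hw
      obtain ⟨x, hx, rfl⟩ := Finset.mem_image.1 hw
      exact (hι m x hx).1
    have hs0 : 0 ≤ ∑ w ∈ W m, g w := Finset.sum_nonneg fun w _ => (h01 w).1
    rw [div_le_iff₀ hZc]
    refine hsum.trans ?_
    have e : C * ((∑ w ∈ W m, g w) / (W m).card) * (Z m).card =
        (∑ w ∈ W m, g w) * ((C * (Z m).card) / (W m).card) := by ring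
    rw [e]
    refine le_mul_of_one_le_right hs0 ?_
    rw [one_le_div hWc]
    exact hcard m
  · refine measure_null_of_locally_null _ fun p hp => ?_
    have key : ∃ U : Set (ℝ × ℝ), IsOpen U ∧ p ∈ U ∧ ∃ N, ∀ m ≥ N, ∀ x ∈ Z m, (x, ι m x) ∉ U := by
      by_cases hI : p.2 ∈ Icc a b
      · have hL : ¬ LP Z ι p.1 p.2 := fun h => hp ⟨h, hI⟩
        unfold LP at hL
        push Not at hL
        obtain ⟨ε, hε, N, hN⟩ := hL
        refine ⟨{q | |q.1 - p.1| < ε ∧ |q.2 - p.2| < ε}, ?_, ?_, N, ?_⟩
        · exact (isOpen_lt ((continuous_fst.sub continuous_const).abs) continuous_const).inter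
            (isOpen_lt ((continuous_snd.sub continuous_const).abs) continuous_const)
        · simp [hε]
        · intro m hm x hx hcon
          exact absurd hcon.2 (not_lt.2 (hN m hm x hx hcon.1))
      · refine ⟨{q | q.2 ∉ Icc a b}, ?_, hI, 0, fun m _ x hx hcon => hcon (hι m x hx).2⟩
        exact (isClosed_Icc.preimage continuous_snd).isOpen_compl
    obtain ⟨U, hU, hpU, N, hN⟩ := key
    refine ⟨U, mem_nhdsWithin_of_mem_nhds (hU.mem_nhds hpU), ?_⟩
    have h1 := ProbabilityMeasure.le_liminf_measure_open_of_tendsto hlim hU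
    have h2 : ∀ᶠ i in atTop, (P (φ i) : Measure (ℝ × ℝ)) U = 0 := by
      filter_upwards [eventually_ge_atTop N] with i hi
      rw [hPm]
      exact um_zero _ _ hU.measurableSet (hN (φ i) (hi.trans (hφ.le_apply)))
    have h3 : liminf (fun i => (P (φ i) : Measure (ℝ × ℝ)) U) atTop = 0 := by
      rw [liminf_congr h2]
      simp
    rw [h3] at h1
    exact le_antisymm h1 zero_le

end Pool.Agent.W811.Dos
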