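import Mathlib
import Pool.Agent.W811.Dos.Stm
import Pool.Agent.W811.Dos.CP1
import Pool.Agent.W965.Stu.Tr

/-!
The density of states measure has no atoms.
-/

set_option autoImplicit false

open MeasureTheory Filter Topology Set
open scoped ENNReal NNReal

namespace Pool.Agent.W811.Dos

open Pool.Agent.W811.Stu Pool.Agent.H695R3.ST Pool.Agent.W965.Stu

lemma pot_abs {lam : ℝ} (hlam : 0 ≤ lam) (α ω : ℝ) (n : ℤ) : |pot lam α ω n| ≤ lam := by
  unfold pot
  split_ifs
  · rw [abs_of_nonneg hlam]
  · rw [abs_zero]; exact hlam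

lemma QQ_ge {a : ℕ → ℕ} (ha : ∀ m, 1 ≤ a m) (m : ℕ) : m ≤ QQ a (m + 1) ∧ m + 1 ≤ QQ a (m + 2) := by
  induction m with
  | zero => exact ⟨Nat.zero_le _, QQ_pos ha 1⟩
  | succ m ih =>
    refine ⟨ih.2, ?_⟩
    rw [show m + 1 + 2 = (m + 1) + 2 from rfl, QQ_succ]
    have h1 := ha (m + 1)
    have h2 : QQ a (m + 1 + 1) ≤ a (m + 1) * QQ a (m + 1 + 1) := Nat.le_mul_of_pos_left _ h1
    have h3 := QQ_pos ha m
    have h4 := ih.2
    have e : m + 1 + 1 = m + 2 := rfl
    rw [e] at h2 ⊢
    omega

theorem tAt (h : TNa) (hz : TZc) : TAt := by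
  intro lam hlam α hα h0 h1 μ hμ hL E
  have hd1 : ∀ k, 1 ≤ dig α k := fun k => dig_pos hα h0 h1 k
  -- small integrals
  have key : ∀ ε : ℝ, 0 < ε → μ.real {E} ≤ ε := by
    intro ε hε
    obtain ⟨η, hη, q0, hq0⟩ := h lam E ε hε
    set g : ℝ → ℝ := fun x => max 0 (1 - |x - E| / η) with hg
    have hgc : Continuous g := by
      rw [hg]; fun_prop
    have hg0 : ∀ x, 0 ≤ g x := fun x => le_max_left _ _
    have hg1 : ∀ x, g x ≤ 1 := by
      intro x
      refine max_le zero_le_one ?_
      have : 0 ≤ |x - E| / η := by positivity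
      linarith
    have hgE : g E = 1 := by
      show max 0 (1 - |E - E| / η) = 1
      rw [sub_self, abs_zero, zero_div, sub_zero, max_eq_right zero_le_one]
    have hgz : ∀ x, ¬ |x - E| < η → g x = 0 := by
      intro x hx
      refine max_eq_left ?_
      have : 1 ≤ |x - E| / η := (one_le_div hη).2 (not_lt.1 hx)
      linarith
    have hi : Integrable g μ := by
      refine Integrable.of_bound hgc.aestronglyMeasurable 1 (Eventually.of_forall fun x => ?_)
      rw [Real.norm_eq_abs, abs_of_nonneg (hg0 x)]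
      exact hg1 x
    have hle : μ.real {E} ≤ ∫ x, g x ∂μ := by
      rw [← integral_indicator_one (measurableSet_singleton E)]
      refine integral_mono ((integrable_const (1:ℝ)).indicator (measurableSet_singleton E)) hi
        fun x => ?_
      by_cases hx : x ∈ ({E} : Set ℝ)
      · rw [indicator_of_mem hx, Pi.one_apply]
        rw [mem_singleton_iff] at hx
        rw [hx, hgE]
      · rw [indicator_of_notMem hx]
        exact hg0 x
    refine hle.trans (le_of_tendsto (hL g hgc) ?_)
    filter_upwards [eventually_ge_atTop (q0 + 1)] with m hm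
    classical
    obtain ⟨z1, z2, -⟩ := hz lam hlam α hα h0 h1 m (by omega)
    obtain ⟨m', rfl⟩ : ∃ m', m = m' + 1 := ⟨m - 1, by omega⟩
    set Z := zs lam (m' + 1) (dig α) with hZ
    set q := QQ (dig α) (m' + 2) with hq
    have hqm : m' + 1 ≤ q := (QQ_ge hd1 m').2
    have hc := hq0 (pot lam α 0) (pot_abs hlam.le α 0) q (by omega) (Z.filter fun x => |x - E| < η)
      (by
        intro x hx
        rw [Finset.mem_filter] at hx
        refine ⟨?_, hx.2⟩
        rw [← orb_y_D hα h0 h1 m', (z1 x).1 hx.1, mul_zero])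
    have hcard : (Z.card : ℝ) = q := by rw [z2]
    unfold av
    rw [hcard]
    have hqpos : (0:ℝ) < q := by
      have : 0 < q := by omega
      exact_mod_cast this
    rw [div_le_iff₀ hqpos]
    refine le_trans ?_ hc
    calc ∑ x ∈ Z, g x = ∑ x ∈ Z.filter (fun x => |x - E| < η), g x := by
          rw [Finset.sum_filter]
          refine Finset.sum_congr rfl fun x _ => ?_
          split_ifs with hx
          · rfl
          · exact hgz x hx
      _ ≤ ∑ x ∈ Z.filter (fun x => |x - E| < η), (1:ℝ) := Finset.sum_le_sum fun x _ => hg1 x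
      _ = _ := by simp
  have h2 : μ.real {E} ≤ 0 := le_of_forall_pos_le_add fun ε hε => by
    rw [zero_add]; exact key ε hε
  have h3 : μ.real {E} = 0 := le_antisymm h2 measureReal_nonneg
  exact (measureReal_eq_zero_iff (measure_ne_top μ {E})).1 h3

end Pool.Agent.W811.Dos
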