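import Mathlib
import Pool.Agent.W811.Dos.Meas

/-!
Transport of the dimension by a coupling.
-/

set_option autoImplicit false

open MeasureTheory Filter Topology Set
open scoped ENNReal NNReal

namespace Pool.Agent.W811.Dos

lemma dim_of_holder {A B : Set ℝ} (h : ∀ r : ℝ≥0, 0 < r → r < 1 → ∃ C : ℝ≥0, ∃ g : ℝ → ℝ,
    HolderOnWith C r g A ∧ g '' A = B) : dimH B ≤ dimH A := by
  have h1 : ∀ r : ℝ≥0, 0 < r → r < 1 → (r : ℝ≥0∞) * dimH B ≤ dimH A := by
    intro r hr0 hr1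
    obtain ⟨C, g, a1, a2⟩ := h r hr0 hr1
    have h2 := a1.dimH_image_le hr0
    rw [a2] at h2
    have hr : (r : ℝ≥0∞) ≠ 0 := by simpa using hr0.ne'
    rw [mul_comm]
    exact (ENNReal.le_div_iff_mul_le (Or.inl hr) (Or.inl ENNReal.coe_ne_top)).1 h2
  have h2 : Tendsto (fun r : ℝ≥0 => (r : ℝ≥0∞) * dimH B) (𝓝[<] 1) (𝓝 (1 * dimH B)) := by
    apply ENNReal.Tendsto.mul_const _ (Or.inl one_ne_zero)
    have : Tendsto (fun r : ℝ≥0 => (r : ℝ≥0∞)) (𝓝 1) (𝓝 ((1 : ℝ≥0) : ℝ≥0∞)) :=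
      ENNReal.continuous_coe.tendsto 1
    rw [ENNReal.coe_one] at this
    exact this.mono_left nhdsWithin_le_nhds
  rw [one_mul] at h2
  have : (𝓝[<] (1 : ℝ≥0)).NeBot := nhdsLT_neBot_of_exists_lt ⟨0, zero_lt_one⟩
  refine le_of_tendsto h2 ?_
  have h3 : ∀ᶠ r : ℝ≥0 in 𝓝[<] 1, 0 < r :=
    nhdsWithin_le_nhds (lt_mem_nhds zero_lt_one)
  filter_upwards [h3, self_mem_nhdsWithin] with r a b
  exact h1 r a b

theorem cp2 : TCp2 := by
  classical
  intro μ ν π C R hπ hμ hν hR hH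
  refine le_iInf fun S => le_iInf fun hS => le_iInf fun hS0 => ?_
  -- the image
  set R' : Set (ℝ × ℝ) := R ∩ Prod.snd ⁻¹' S with hR'
  set A : Set ℝ := Prod.snd '' R' with hA
  set B : Set ℝ := Prod.fst '' R' with hB
  have hAS : A ⊆ S := by
    rintro _ ⟨p, hp, rfl⟩
    exact hp.2
  have hinj : ∀ p ∈ R', ∀ p' ∈ R', p.2 = p'.2 → p.1 = p'.1 := by
    intro p hp p' hp' he
    obtain ⟨Cr, hCr⟩ := hH (1 / 2) (by norm_num) (by norm_num)
    have := hCr p hp.1 p' hp'.1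
    rw [he, sub_self, abs_zero, Real.zero_rpow (by norm_num), mul_zero] at this
    have := abs_nonpos_iff.1 this
    linarith
  have hg : ∃ g : ℝ → ℝ, ∀ p ∈ R', g p.2 = p.1 := by
    have : ∀ y : ℝ, ∃ x : ℝ, ∀ p ∈ R', p.2 = y → p.1 = x := by
      intro y
      by_cases h : ∃ p ∈ R', p.2 = y
      · obtain ⟨p, hp, hpy⟩ := h
        exact ⟨p.1, fun p' hp' h' => hinj p' hp' p hp (h'.trans hpy.symm)⟩
      · exact ⟨0, fun p hp h' => absurd ⟨p, hp, h'⟩ h⟩
    choose g hg using this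
    exact ⟨g, fun p hp => (hg p.2 p hp rfl).symm⟩
  obtain ⟨g, hg⟩ := hg
  have hgA : g '' A = B := by
    rw [hA, hB, image_image]
    exact image_congr fun p hp => hg p hp
  have hdim : dimH B ≤ dimH S := by
    refine le_trans (dim_of_holder (A := A) (B := B) ?_) (dimH_mono hAS)
    intro r hr0 hr1
    obtain ⟨Cr, hCr⟩ := hH r (by exact_mod_cast hr0) (by exact_mod_cast hr1)
    refine ⟨Real.toNNReal Cr, g, ?_, hgA⟩
    rintro _ ⟨p, hp, rfl⟩ _ ⟨p', hp', rfl⟩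
    rw [hg p hp, hg p' hp', edist_dist, edist_dist, Real.dist_eq, Real.dist_eq,
      ENNReal.ofReal_rpow_of_nonneg (abs_nonneg _) (NNReal.coe_nonneg r)]
    have h1 := hCr p hp.1 p' hp'.1
    have h2 : |p.1 - p'.1| ≤ (Real.toNNReal Cr : ℝ) * |p.2 - p'.2| ^ (r : ℝ) :=
      h1.trans (mul_le_mul_of_nonneg_right (Real.le_coe_toNNReal Cr) (by positivity))
    calc ENNReal.ofReal |p.1 - p'.1| ≤ ENNReal.ofReal ((Real.toNNReal Cr : ℝ) *
          |p.2 - p'.2| ^ (r : ℝ)) := ENNReal.ofReal_le_ofReal h2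
      _ = _ := by
        rw [ENNReal.ofReal_mul (by positivity), ENNReal.ofReal_coe_nnreal]
  refine le_trans ?_ hdim
  -- a measurable hull
  refine le_of_forall_gt_imp_ge_of_dense fun s hs => ?_
  rcases eq_or_ne s ⊤ with rfl | hst
  · exact le_top
  lift s to ℝ≥0 using hst
  have hz : μH[(s : ℝ)] B = 0 := hausdorffMeasure_of_dimH_lt hs
  set t := toMeasurable (μH[(s : ℝ)]) B with ht
  have htm : MeasurableSet t := measurableSet_toMeasurable _ _
  have hBt : B ⊆ t := subset_toMeasurable _ _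
  have htz : μH[(s : ℝ)] t = 0 := by rw [ht, measure_toMeasurable, hz]
  have hdt : dimH t ≤ s := by
    apply dimH_le_of_hausdorffMeasure_ne_top
    rw [htz]
    exact ENNReal.zero_ne_top
  have hμt : μ tᶜ = 0 := by
    rw [← hμ, Measure.map_apply measurable_fst htm.compl]
    have hsub : Prod.fst ⁻¹' tᶜ ⊆ Rᶜ ∪ (Prod.snd ⁻¹' Sᶜ : Set (ℝ × ℝ)) := by
      intro p hp
      by_contra hcon
      rw [mem_union, not_or, notMem_compl_iff] at hcon
      have h2 : p.2 ∈ S := by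
        by_contra h3
        exact hcon.2 h3
      exact hp (hBt ⟨p, ⟨hcon.1, h2⟩, rfl⟩)
    refine measure_mono_null hsub ?_
    rw [measure_union_null_iff]
    refine ⟨hR, ?_⟩
    have := hν Sᶜ hS.compl
    rw [hS0, mul_zero] at this
    exact le_antisymm this zero_le
  calc upDim μ ≤ dimH t := iInf_le_of_le t (iInf_le_of_le htm (iInf_le_of_le hμt le_rfl))
    _ ≤ s := hdt

end Pool.Agent.W811.Dos
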