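import Mathlib
import Pool.Agent.W811.Dos.Stm
import Pool.Agent.W811.Stu.Final

/-!
A leaf meets the starting line once; holonomy with both ends variable.
-/

set_option autoImplicit false

open MeasureTheory Filter Topology Set
open scoped ENNReal NNReal

namespace Pool.Agent.W811.Dos

open Pool.Agent.W811.Stu Pool.Agent.H695R3.ST Pool.Agent.W965.Stu

/-- level functions with small values take each value once -/
lemma lev_inj {lam : ℝ} (hlam : lam ≠ 0) {d : ℕ → ℕ} (hd : ∀ k, 1 ≤ d k) {M : ℕ} {E E' : ℝ}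
    (h : ∀ e ∈ uIcc E E', |(orb d (lin lam e) M).y| < cc (lam / 2))
    (he : (orb d (lin lam E) M).y = (orb d (lin lam E') M).y) : E = E' := by
  have key : ∀ a b : ℝ, a < b → (∀ e ∈ Icc a b, |(orb d (lin lam e) M).y| < cc (lam / 2)) →
      (orb d (lin lam a) M).y = (orb d (lin lam b) M).y → False := by
    intro a b hab h1 h2
    obtain ⟨ξ, hξ, hz⟩ := exists_hasDerivAt_eq_zero (f := fun e => (orb d (lin lam e) M).y)
      (f' := fun e => -(Vy d M (lin lam e)) / lam) hab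
      (fun e _ => (hasDeriv_level hlam d M e).continuousAt.continuousWithinAt) h2
      (fun e _ => hasDeriv_level hlam d M e)
    have h3 := (tDist lam hlam d hd M).1 ξ (h1 ξ (Ioo_subset_Icc_self hξ))
    rw [div_eq_zero_iff, neg_eq_zero] at hz
    rcases hz with hz | hz
    · exact h3 hz
    · exact hlam hz
  rcases lt_trichotomy E E' with h1 | h1 | h1
  · exact (key E E' h1 (by rwa [uIcc_of_le h1.le] at h) he).elim
  · exact h1
  · exact (key E' E h1 (by rwa [uIcc_of_ge h1.le] at h) he.symm).elim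

theorem tInj : TInj := by
  intro lam hlam d hd M hM q E E' h1 h2 h0
  have hδ : lam / 2 ≠ 0 := div_ne_zero hlam (by norm_num)
  have hc0 : 0 < cc (lam / 2) := cc_pos _
  obtain ⟨g, s, t, hg, hgs, hgt⟩ := h1
  obtain ⟨g', s', t', hg', hgs', hgt'⟩ := h2
  have l1 : ∀ τ ∈ uIcc s t, |(orb d (g τ) M).y| ≤ 0 := by
    intro τ hτ
    rw [hg.lev τ hτ, ← hg.lev t right_mem_uIcc, hgt, h0, abs_zero]
  have l2 : ∀ τ ∈ uIcc s' t', |(orb d (g' τ) M).y| ≤ 0 := by
    intro τ hτ
    rw [hg'.lev τ hτ, ← hg'.lev t' right_mem_uIcc, hgt', h0, abs_zero]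
  have j1 := W816.Stu.join_leaf hg l1
  have j2 := W816.Stu.join_leaf hg' l2
  rw [hgs, hgt] at j1
  rw [hgs', hgt'] at j2
  obtain ⟨E'', -, hle, hlast⟩ := tExit lam hlam d hd M hM 0 hc0 E (lin lam E') (j1.trans j2.symm)
  have e1 := hlast E' rfl
  rw [e1] at hle
  refine lev_inj hlam hd (M := M) (fun e he => lt_of_le_of_lt (hle e he) hc0) ?_
  have a1 := hle E left_mem_uIcc
  have a2 := hle E' right_mem_uIcc
  rw [abs_nonpos_iff] at a1 a2
  rw [a1, a2]

theorem tH2 : TH2 := by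
  intro lam hlam d n hd e0 e1 hW E0 E1 hE0 hE1 hH
  have hδ : lam / 2 ≠ 0 := div_ne_zero hlam.ne' (by norm_num)
  have hc : 1 < cc (lam / 2) := one_lt_cc hδ
  set c := cc (lam / 2) with hcdef
  obtain ⟨κ1, a1, a2⟩ := exists_between hc
  obtain ⟨κ2, a3, a4⟩ := exists_between a2
  obtain ⟨κ3, a5, a6⟩ := exists_between a4
  obtain ⟨j0, hj0, hLC⟩ := tLeafC (lam / 2) κ1 κ2 hδ (by linarith) a3 a4
  set β := sh d n with hβ
  have hβ1 : ∀ k, 1 ≤ β k := fun k => hd _
  obtain ⟨c0, hc0, hLB⟩ := tLB (lam / 2) κ3 hδ (by linarith) a6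
  intro ε hε N
  -- a smaller epsilon
  obtain ⟨ε', hε', hεε, hεl, hεr⟩ : ∃ ε' : ℝ, 0 < ε' ∧ ε' ≤ ε ∧ e0 + ε' < E1 ∧ E1 + ε' < e1 := by
    refine ⟨min ε (min ((E1 - e0) / 2) ((e1 - E1) / 2)), ?_, min_le_left _ _, ?_, ?_⟩
    · exact lt_min hε (lt_min (by linarith [hE1.1]) (by linarith [hE1.2]))
    · have := (min_le_right ε (min ((E1 - e0) / 2) ((e1 - E1) / 2))).trans (min_le_left _ _)
      linarith [hE1.1]
    · have := (min_le_right ε (min ((E1 - e0) / 2) ((e1 - E1) / 2))).trans (min_le_right _ _)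
      linarith [hE1.2]
  -- bands are short
  set KK : ℝ := 2 * κ3 * |lam| * Real.exp (2 * κ3 / (c - κ3)) with hKK
  have hKK0 : 0 < KK := by
    have : 0 < |lam| := abs_pos.2 hlam.ne'
    have : 0 < κ3 := by linarith
    rw [hKK]; positivity
  obtain ⟨m1, hm1⟩ : ∃ m1 : ℕ, ∀ m, m1 ≤ m → KK < ε' / 2 * (c0 * 2 ^ ((n + 1 + m) / 2)) := by
    have h2 : Tendsto (fun m : ℕ => ε' / 2 * (c0 * (2:ℝ) ^ ((n + 1 + m) / 2))) atTop atTop := by
      apply Tendsto.const_mul_atTop (by positivity)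
      apply Tendsto.const_mul_atTop hc0
      refine (tendsto_pow_atTop_atTop_of_one_lt (by norm_num : (1:ℝ) < 2)).comp ?_
      refine tendsto_atTop.2 fun b => ?_
      filter_upwards [eventually_ge_atTop (2 * b)] with m hm
      omega
    obtain ⟨m1, hm1⟩ := eventually_atTop.1 (h2.eventually_gt_atTop KK)
    exact ⟨m1, hm1⟩
  obtain ⟨m, hmN, hmj, hmm, hym⟩ : ∃ m, N ≤ m ∧ j0 ≤ m ∧ m1 ≤ m ∧
      |(orb β (lin lam E0) m).y| ≤ 1 := by
    rcases hE0 (N + j0 + m1) with h | h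
    · exact ⟨_, by omega, by omega, by omega, h⟩
    · exact ⟨_, by omega, by omega, by omega, h⟩
  -- continuity
  have hcont : Continuous fun e => (orb β (lin lam e) m).y :=
    cont_toL_y (f := fun e => orb β (lin lam e) m) ((cont_orb β m).comp (cont_lin lam))
  obtain ⟨η, hη, hnear⟩ := W816.Stu.near hcont (hym.trans_lt a1)
  obtain ⟨M, hM, E', hE', E, hE, hEE, hyM, g, s, t, hg, hgs, hgt⟩ :=
    hH (min η (ε' / 2)) (lt_min hη (by positivity)) (m + 3)
  have hE'η : |E' - E0| < η := lt_of_lt_of_le hE' (min_le_left _ _)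
  have hEε : |E - E1| < ε' / 2 := lt_of_lt_of_le hEE (min_le_right _ _)
  -- along the leaf
  have k1 : |(orb β (lin lam E') m).y| ≤ κ1 := (hnear E' hE'η).le
  have k2 : ∀ τ ∈ uIcc s t, |(orb β (g τ) m).y| ≤ κ2 :=
    hLC β hβ1 M g s t hg (by rw [hgs]; exact hyM) m hmj hM (by rw [hgs]; exact k1)
  have p1 : JoinedIn (Reg (lam / 2) κ3 β m) (toL (lin lam E0)) (toL (lin lam E')) := by
    refine W816.Stu.joinedIn_of_path (f := fun e => toL (lin lam e)) (cont_lin lam).continuousOn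
      (fun τ hτ => W816.Stu.mem_Reg (onS_lin lam τ) (by simp [lin]) ?_)
    have : |τ - E0| < η := by
      refine W816.Stu.seg_near (E := E') hE'η ?_
      rwa [uIcc_comm]
    linarith [(hnear τ this)]
  have p2 : JoinedIn (Reg (lam / 2) κ3 β m) (toL (lin lam E')) (toL (Ga lam d n E)) := by
    have := W816.Stu.join_leaf hg (b := β) (m := m) (κ := κ3) (fun τ hτ => (k2 τ hτ).trans a5.le)
    rwa [hgs, hgt] at this
  -- the band of the curve
  have horb : ∀ e, (orb β (Ga lam d n e) m).y = (orb d (lin lam e) (n + 1 + m)).y := by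
    intro e
    rw [orb_add]
    rfl
  have k3 : |(orb d (lin lam E) (n + 1 + m)).y| ≤ κ3 := by
    rw [← horb, ← hgt]
    exact (k2 t right_mem_uIcc).trans a5.le
  have hD := (tDist lam hlam.ne' d hd (n + 1 + m)).2 κ3 (by linarith) a6
  obtain ⟨u, v, huE, hEv, huv, hband, hends⟩ := hD.2 E k3
  have hlen : ∀ e ∈ Icc u v, |e - E| ≤ ε' / 2 := by
    intro e he
    have hsub : uIcc E e ⊆ Icc u v := uIcc_subset_Icc ⟨huE, hEv⟩ he
    have h3 := (hD.1 E e (fun x hx => hband x (hsub hx))).2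
    have h4 := hLB d hd (n + 1 + m) (by omega) (lin lam E) (onS_lin lam E) (by simp [lin]) k3
    have h5 := hm1 m hmm
    rw [abs_sub_comm]
    by_contra hcon
    rw [not_le] at hcon
    have h6 : ε' / 2 * (c0 * 2 ^ ((n + 1 + m) / 2)) ≤ |E - e| * |Vy d (n + 1 + m) (lin lam E)| :=
      mul_le_mul hcon.le h4 (by positivity) (abs_nonneg _)
    have h7 : 2 * κ3 * |lam| * Real.exp (2 * κ3 / (cc (lam / 2) - κ3)) = KK := rfl
    linarith
  have hsubI : Icc u v ⊆ Icc e0 e1 := by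
    intro e he
    have h3 := abs_le.1 (hlen e he)
    have h4 := abs_lt.1 hEε
    constructor <;> linarith [h3.1, h3.2, h4.1, h4.2]
  -- the crossing point
  have hcontd : Continuous fun e => (orb d (lin lam e) (n + 1 + m)).y :=
    cont_toL_y (f := fun e => orb d (lin lam e) (n + 1 + m))
      ((cont_orb d (n + 1 + m)).comp (cont_lin lam))
  obtain ⟨e, he, hye⟩ : ∃ e ∈ Icc u v,
      (orb d (lin lam e) (n + 1 + m)).y = (orb β (lin lam E0) m).y := by
    have hy := abs_le.1 hym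
    rcases hends with ⟨b1, b2⟩ | ⟨b1, b2⟩
    · have := intermediate_value_Icc huv.le hcontd.continuousOn
      obtain ⟨e, he, h3⟩ := this (show (orb β (lin lam E0) m).y ∈ _ from
        ⟨by show (orb d (lin lam u) (n + 1 + m)).y ≤ _; rw [b1]; linarith [hy.1],
          by show _ ≤ (orb d (lin lam v) (n + 1 + m)).y; rw [b2]; linarith [hy.2]⟩)
      exact ⟨e, he, h3⟩
    · have := intermediate_value_Icc' huv.le hcontd.continuousOn
      obtain ⟨e, he, h3⟩ := this (show (orb β (lin lam E0) m).y ∈ _ from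
        ⟨by show (orb d (lin lam v) (n + 1 + m)).y ≤ _; rw [b2]; linarith [hy.1],
          by show _ ≤ (orb d (lin lam u) (n + 1 + m)).y; rw [b1]; linarith [hy.2]⟩)
      exact ⟨e, he, h3⟩
  have p3 : JoinedIn (Reg (lam / 2) κ3 β m) (toL (Ga lam d n E)) (toL (Ga lam d n e)) := by
    refine W816.Stu.join_Ga hW hE (hsubI he) (fun x hx => ?_)
    rw [horb]
    exact hband x (uIcc_subset_Icc ⟨huE, hEv⟩ he hx)
  obtain ⟨E'', hJ, hle, -⟩ := tExit lam hlam.ne' β hβ1 m (by omega) κ3 a6 E0 (Ga lam d n e)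
    ((p1.trans p2).trans p3)
  obtain ⟨g2, s2, t2, hg2, hgs2, hgt2⟩ := hJ
  have hEE2 : E0 = E'' := by
    refine lev_inj hlam.ne' hβ1 (M := m) (fun x hx => lt_of_le_of_lt (hle x hx) a6) ?_
    rw [← hye, ← horb, ← hgs2, ← hg2.lev t2 right_mem_uIcc, hgt2]
  refine ⟨m, hmN, e, hsubI he, ?_, hym, g2, t2, s2, W816.Stu.IsLeaf.rev hg2, by rw [hgt2, hEE2],
    hgs2⟩
  have h3 := hlen e he
  have h4 : e - E1 = (e - E) + (E - E1) := by ring
  rw [h4]
  have := abs_add_le (e - E) (E - E1)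
  linarith

end Pool.Agent.W811.Dos
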