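import Mathlib
import Pool.Agent.W811.Dos.Stm

/-!
Polynomials of the operator and local functions of the potential.
-/

set_option autoImplicit false

open MeasureTheory Filter Topology Set
open scoped ENNReal NNReal

namespace Pool.Agent.W811.Dos

open Pool.Agent.W811.Stu Pool.Agent.H695R3.ST Pool.Agent.W965.Stu
open Pool.Agent.Helper434.PSCplx

section gen

variable {X : Type} [NormedAddCommGroup X] [InnerProductSpace ℂ X] [CompleteSpace X]

lemma qf_poly {H : X →L[ℂ] X} (hH : IsSelfAdjoint H) (ψ : X) (p : Polynomial ℝ) :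
    qf (fun x => p.eval x) H ψ = p.sum (fun k a => a * (inner ℂ ψ ((H ^ k) ψ)).re) := by
  unfold qf
  have h1 : cfc (fun x => p.eval x) H = Polynomial.aeval H p := cfc_polynomial p H hH
  rw [h1, Polynomial.aeval_eq_sum_range, Polynomial.sum_over_range _ (fun _ => zero_mul _)]
  rw [ContinuousLinearMap.sum_apply, inner_sum, Complex.re_sum]
  refine Finset.sum_congr rfl fun k _ => ?_
  rw [ContinuousLinearMap.smul_apply]
  have h2 : p.coeff k • (H ^ k) ψ = ((p.coeff k : ℝ) : ℂ) • (H ^ k) ψ :=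
    RCLike.real_smul_eq_coe_smul (K := ℂ) _ _
  rw [h2, inner_smul_right, Complex.re_ofReal_mul]

lemma spec_bound {H : X →L[ℂ] X} {R : ℝ} (hR : ‖H‖ ≤ R) {x : ℝ} (hx : x ∈ spectrum ℝ H) :
    x ∈ Icc (-R) R := by
  have h1 := spectrum.norm_le_norm_mul_of_mem hx
  have h2 : ‖(1 : X →L[ℂ] X)‖ ≤ 1 := ContinuousLinearMap.norm_id_le
  rw [Real.norm_eq_abs] at h1
  have h3 : |x| ≤ R := by
    calc |x| ≤ ‖H‖ * ‖(1 : X →L[ℂ] X)‖ := h1
      _ ≤ ‖H‖ * 1 := mul_le_mul_of_nonneg_left h2 (norm_nonneg _)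
      _ ≤ R := by rw [mul_one]; exact hR
  exact abs_le.1 h3

lemma qf_close {H : X →L[ℂ] X} {R : ℝ} (hR : ‖H‖ ≤ R) (hR0 : 0 ≤ R) {ψ : X}
    (hψ : ‖ψ‖ = 1) {g1 g2 : ℝ → ℝ} {ε : ℝ} (h1 : Continuous g1) (h2 : Continuous g2)
    (h : ∀ x ∈ Icc (-R) R, |g1 x - g2 x| ≤ ε) : |qf g1 H ψ - qf g2 H ψ| ≤ ε := by
  have hε : 0 ≤ ε := (abs_nonneg _).trans (h 0 ⟨by linarith, hR0⟩)
  unfold qf
  rw [← Complex.sub_re, ← inner_sub_right, ← ContinuousLinearMap.sub_apply,
    ← cfc_sub g1 g2 H h1.continuousOn h2.continuousOn]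
  have h3 : ‖cfc (fun x => g1 x - g2 x) H‖ ≤ ε :=
    norm_cfc_le hε fun x hx => by
      rw [Real.norm_eq_abs]; exact h x (spec_bound hR hx)
  calc |(inner ℂ ψ ((cfc (fun x => g1 x - g2 x) H) ψ)).re|
      ≤ ‖inner ℂ ψ ((cfc (fun x => g1 x - g2 x) H) ψ)‖ := Complex.abs_re_le_norm _
    _ ≤ ‖ψ‖ * ‖(cfc (fun x => g1 x - g2 x) H) ψ‖ := norm_inner_le_norm _ _
    _ ≤ ‖ψ‖ * (ε * ‖ψ‖) := by
        refine mul_le_mul_of_nonneg_left ?_ (norm_nonneg _)
        exact (ContinuousLinearMap.le_opNorm _ _).trans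
          (mul_le_mul_of_nonneg_right h3 (norm_nonneg _))
    _ = ε := by rw [hψ]; ring

end gen

lemma norm_SS (a : ℤ) : ‖SS a‖ ≤ 1 := LinearMap.mkContinuous_norm_le _ zero_le_one _

lemma norm_MM (v : ℤ → ℝ) {C : ℝ} (hv : ∀ m, |v m| ≤ C) : ‖MM v hv‖ ≤ C :=
  LinearMap.mkContinuous_norm_le _ ((abs_nonneg _).trans (hv 0)) _

lemma norm_schr {V : ℤ → ℝ} {B : ℝ} (hV : ∀ n, |V n| ≤ B) {H : L2 →L[ℂ] L2} (hH : IsSchr V H) :
    ‖H‖ ≤ 2 + B := by
  have : H = SS 1 + SS (-1) + MM V hV := by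
    ext ψ n
    rw [hH]
    rfl
  rw [this]
  refine (norm_add_le _ _).trans ?_
  have h1 := norm_add_le (SS 1) (SS (-1))
  have h2 := norm_SS 1
  have h3 := norm_SS (-1)
  have h4 := norm_MM V hV
  linarith

lemma pow_δ0 {V : ℤ → ℝ} {H : L2 →L[ℂ] L2} (hH : IsSchr V H) (k : ℕ) (n : ℤ) :
    ((H ^ k) δ0) n = (((sch V)^[k] (fun j => if j = 0 then 1 else 0)) n : ℝ) := by
  induction k generalizing n with
  | zero =>
    rw [pow_zero, Function.iterate_zero, id]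
    show δ0 n = _
    have := dl_apply 0 n
    unfold dl at this
    unfold δ0
    rw [this]
    split_ifs <;> simp
  | succ k ih =>
    rw [pow_succ', Function.iterate_succ_apply']
    show (H ((H ^ k) δ0)) n = _
    rw [hH, ih, ih, ih]
    unfold sch
    push_cast
    ring

lemma inner_δ0 (ψ : L2) : inner ℂ δ0 ψ = ψ 0 := by
  rw [inner_eq, tsum_eq_single 0]
  · have := dl_apply 0 0
    unfold dl at this
    unfold δ0
    rw [this, if_pos rfl, map_one, one_mul]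
  · intro n hn
    have := dl_apply 0 n
    unfold dl at this
    unfold δ0
    rw [this, if_neg hn, map_zero, zero_mul]

lemma norm_δ0 : ‖δ0‖ = 1 := by
  unfold δ0
  rw [lp.norm_single (by norm_num), norm_one]

theorem tQf : TQf := by
  intro B V H hV hH
  have hB : 0 ≤ B := (abs_nonneg _).trans (hV 0)
  have hsa := schr_sa hV hH
  refine ⟨fun p => ?_, fun g1 g2 ε h1 h2 h => ?_⟩
  · rw [qf_poly hsa]
    unfold Polynomial.sum
    refine Finset.sum_congr rfl fun k _ => ?_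
    have : (inner ℂ δ0 ((H ^ k) δ0)).re = loc V k 0 := by
      rw [inner_δ0, pow_δ0 hH]
      exact Complex.ofReal_re _
    simp only [this]
  · exact qf_close (norm_schr hV hH) (by linarith) norm_δ0 h1 h2 h

end Pool.Agent.W811.Dos
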