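import Mathlib
import Pool.Agent.W811.Dos.Asm
import Pool.Agent.W811.Dos.Qf

/-!
The final form: the constant as a real number.
-/

set_option autoImplicit false

open MeasureTheory Filter Topology Set
open scoped ENNReal NNReal

namespace Pool.Agent.W811.Dos

open Pool.Agent.W811.Stu Pool.Agent.H695R3.ST Pool.Agent.W965.Stu

lemma upDim_le_one (μ : Measure ℝ) : upDim μ ≤ 1 := by
  refine iInf_le_of_le univ (iInf_le_of_le MeasurableSet.univ (iInf_le_of_le (by simp) ?_))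
  rw [Real.dimH_univ]

theorem mainReal (h : ∀ lam : ℝ, 0 < lam → ∃ c : ℝ≥0∞, ∀ᵐ α ∂(volume.restrict (Ioo (0:ℝ) 1)),
      ∃ μ : Measure ℝ, IsDOS lam α μ ∧ (∀ μ', IsDOS lam α μ' → μ' = μ) ∧ upDim μ = c) :
    ∀ lam : ℝ, 0 < lam → ∃ c : ℝ, 0 ≤ c ∧ c ≤ 1 ∧ ∀ᵐ α ∂(volume.restrict (Ioo (0:ℝ) 1)),
      ∃ μ : Measure ℝ, IsDOS lam α μ ∧ (∀ μ', IsDOS lam α μ' → μ' = μ) ∧
        upDim μ = ENNReal.ofReal c := by
  intro lam hlam
  obtain ⟨c, hc⟩ := h lam hlam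
  have hne : (volume.restrict (Ioo (0:ℝ) 1)) ≠ 0 := by
    rw [Ne, Measure.restrict_eq_zero]
    simp
  have : NeBot (ae (volume.restrict (Ioo (0:ℝ) 1))) := ae_neBot.2 hne
  obtain ⟨α, μ, -, -, hμ⟩ := hc.exists
  have hc1 : c ≤ 1 := hμ ▸ upDim_le_one μ
  have hct : c ≠ ⊤ := ne_top_of_le_ne_top ENNReal.one_ne_top hc1
  refine ⟨c.toReal, ENNReal.toReal_nonneg, ?_, ?_⟩
  · have := ENNReal.toReal_mono ENNReal.one_ne_top hc1
    rwa [ENNReal.toReal_one] at this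
  · rw [ENNReal.ofReal_toReal hct]
    exact hc

end Pool.Agent.W811.Dos
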