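import Mathlib
import Pool.Agent.W811.Dos.Stm
import Pool.Agent.W811.Stu.Final

/-!
Small parts: degrees, limits of good points, crossings.
-/

set_option autoImplicit false

open MeasureTheory Filter Topology Set
open scoped ENNReal NNReal

namespace Pool.Agent.W811.Dos

open Pool.Agent.W811.Stu Pool.Agent.H695R3.ST Pool.Agent.W965.Stu

theorem tQq : TQq := by
  intro d n hd
  refine ⟨QQ d (n + 1) + QQ d (n + 2), ?_⟩
  have key : ∀ k, QQ d (n + 1 + (k + 1)) ≤ (QQ d (n + 1) + QQ d (n + 2)) * QQ (sh d n) (k + 1) ∧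
      QQ d (n + 1 + (k + 2)) ≤ (QQ d (n + 1) + QQ d (n + 2)) * QQ (sh d n) (k + 2) := by
    intro k
    induction k with
    | zero =>
      have e1 : QQ (sh d n) 1 = 1 := rfl
      have e2 : QQ (sh d n) 2 = sh d n 0 := by
        rw [show (2:ℕ) = 0 + 2 from rfl, QQ_succ]
        show sh d n 0 * 1 + 0 = _
        omega
      have e3 : QQ d (n + 1 + 2) = d (n + 1) * QQ d (n + 2) + QQ d (n + 1) := QQ_succ d (n + 1)
      have e4 : sh d n 0 = d (n + 1) := rfl
      refine ⟨?_, ?_⟩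
      · rw [zero_add, e1, mul_one]
        exact Nat.le_add_left _ _
      · rw [zero_add, e2, e3, e4]
        have := hd (n + 1)
        nlinarith [Nat.zero_le (QQ d (n + 1)), Nat.zero_le (QQ d (n + 2))]
    | succ k ih =>
      refine ⟨ih.2, ?_⟩
      have e1 : QQ d (n + 1 + (k + 1 + 2)) = d (n + 1 + (k + 1)) * QQ d (n + 1 + (k + 2)) +
          QQ d (n + 1 + (k + 1)) := QQ_succ d (n + 1 + (k + 1))
      have e2 : QQ (sh d n) (k + 1 + 2) = sh d n (k + 1) * QQ (sh d n) (k + 2) +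
          QQ (sh d n) (k + 1) := QQ_succ (sh d n) (k + 1)
      have e3 : sh d n (k + 1) = d (n + 1 + (k + 1)) := rfl
      rw [e1, e2, e3]
      have := Nat.mul_le_mul_left (d (n + 1 + (k + 1))) ih.2
      calc _ ≤ _ := Nat.add_le_add this ih.1
        _ = _ := by ring
  intro M
  exact (key M).1

theorem tLs : TLs := by
  intro lam hlam d hd E0 h
  by_contra hE
  obtain ⟨m, hm⟩ := exists_esc hd hE
  have hop := esc_open lam d m
  obtain ⟨ε, hε, hball⟩ := Metric.isOpen_iff.1 hop E0 hm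
  obtain ⟨M, hM, E, hE1, hE2⟩ := h ε hε m
  have h1 : Esc (orb d (lin lam E) m) := hball (by rw [Metric.mem_ball, Real.dist_eq]; exact hE1)
  have h2 := esc_all hd h1 (M - m)
  rw [show m + (M - m) = M by omega] at h2
  exact absurd hE2 (not_le.2 h2.1)

theorem tCr : TCr := by
  intro lam hlam
  have hδ0 : 0 < lam / 2 := by linarith
  have hcc : 1 < cc (lam / 2) := one_lt_cc hδ0.ne'
  have hk1 : (1 : ℝ) < 1 + (lam / 2) ^ 2 := by
    have : 0 < (lam / 2) ^ 2 := by positivity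
    linarith
  have hN0 : 0 ≤ N0 (lam / 2) 1 := by linarith [N0_ge hδ0.ne' zero_le_one hk1]
  obtain ⟨B, hB⟩ := W308.Stu.tCross (lam / 2) hδ0 (N0 (lam / 2) 1) hN0
  refine ⟨B, ?_⟩
  intro d hd n hn
  obtain ⟨Ez, hEz⟩ := HolEx.exists_zero lam d n hd
  obtain ⟨u, v, _, _, huv, hw, hends⟩ := ((tDist lam hlam.ne' d hd n).2 (1 / 2) (by norm_num)
    (by linarith)).2 Ez (by rw [hEz]; norm_num)
  refine ⟨u, v, ⟨huv, hw⟩, ?_⟩
  intro E0 M hM hM1
  rcases hends with ⟨hu, hv⟩ | ⟨hu, hv⟩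
  · have := HolEx.one lam hlam B hB tLeafEx tTwist d hd n hn u v hu hv
      (by rw [Set.uIcc_of_le huv.le]; exact hw) E0 M hM hM1
    rw [Set.uIcc_of_le huv.le] at this
    exact this
  · have := HolEx.one lam hlam B hB tLeafEx tTwist d hd n hn v u hv hu
      (by rw [Set.uIcc_of_ge huv.le]; exact hw) E0 M hM hM1
    rw [Set.uIcc_of_ge huv.le] at this
    exact this

end Pool.Agent.W811.Dos
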