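import Mathlib
import Pool.Agent.W811.Stu.Final
import Pool.Agent.W811.Dos.Real
import Pool.Agent.W811.Dos.Small
import Pool.Agent.W811.Dos.Inj
import Pool.Agent.W811.Dos.CP1
import Pool.Agent.W811.Dos.CP2
import Pool.Agent.W811.Dos.At
import Pool.Agent.W811.Dos.Qf
import Pool.Agent.W247.Dos.TR
import Pool.Agent.W247.Dos.LM
import Pool.Agent.W382.Dos.Ud
import Pool.Agent.W7.Dos.Mes
import Pool.Agent.W335.Dos.Na
import Pool.Agent.W688.Dos.WL
import Pool.Agent.W688.Dos.ZC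
import Pool.Agent.W672.Dos.Dos

/-!
The upper Hausdorff dimension of the density of states measure is almost everywhere constant.
-/

set_option autoImplicit false

open MeasureTheory Filter Topology Set
open scoped ENNReal NNReal

namespace Pool.Agent.W811.Dos

open Pool.Agent.W811.Stu Pool.Agent.H695R3.ST Pool.Agent.W965.Stu

theorem final : ∀ lam : ℝ, 0 < lam → ∃ c : ℝ, 0 ≤ c ∧ c ≤ 1 ∧
    ∀ᵐ α ∂(volume.restrict (Ioo (0:ℝ) 1)),
      ∃ μ : Measure ℝ, IsDOS lam α μ ∧ (∀ μ', IsDOS lam α μ' → μ' = μ) ∧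
        upDim μ = ENNReal.ofReal c :=
  mainReal (main tCr tInj tLs tH2 tQq Pool.Agent.W688.Dos.zc
    (tAt Pool.Agent.W335.Dos.na Pool.Agent.W688.Dos.zc) cp1 cp2 Pool.Agent.W811.Stu.tHol
    (Pool.Agent.W672.Dos.dos Pool.Agent.W247.Dos.tr Pool.Agent.W688.Dos.wl Pool.Agent.W688.Dos.zc
      tQf Pool.Agent.W247.Dos.lm)
    (Pool.Agent.W7.Dos.mes Pool.Agent.W382.Dos.Ud.ud))

end Pool.Agent.W811.Dos
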